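import Mathlib
import Pool.Agent.H686R4.ShkC

/-!
# A metrically universal separable group with left-invariant metric

There is a separable group `G` with a left-invariant metric into which every separable group with
left-invariant metric embeds isometrically (and homomorphically).

`G` is the group of isometries of (the completion of) a rich countable metric space `(uₙ)`, a
concrete enumeration of the Urysohn space in which every Katetov function over an initial segment
is approximately realised infinitely often by points placed freely over that segment, with metric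
`max (d(g u₀, h u₀)) (sup_n min(d(g uₙ, h uₙ), 1) / (n+1))`.

Given `(H, ρ)` one builds recursively an isometric `H`-space with a dense sequence `(xₙ)`
isometric to `(uₙ)`, with `d(h x₀, x₀) = ρ(h, 1)` and `d(h xₙ, xₙ) ≤ (n+1) ρ(h, 1)`.
-/

namespace Pool.Agent.Results.MP_501377_al.UniversalLeftInvariant

open Set Filter Topology Pool.Agent.H686R4

universe u

section

variable {H : Type u} [Group H] {N : H → ℝ} {μ : ℕ → ℕ → H → ℝ}

/-- The `H`-space: the point `(n, h)` stands for `h xₙ`. -/
@[nolint unusedArguments]
def XH (_ : ℕ → ℕ → H → ℝ) : Type u := ℕ × H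

/-- constructor -/
def mkX (μ : ℕ → ℕ → H → ℝ) (n : ℕ) (h : H) : XH μ := (n, h)

/-- The pseudo-metric. -/
@[reducible] noncomputable def pmX (hG : ∀ n, Good DD N n μ) : PseudoMetricSpace (XH μ) where
  dist p q := μ p.1 q.1 (p.2⁻¹ * q.2)
  dist_self p := by
    show μ p.1 p.1 (p.2⁻¹ * p.2) = 0
    rw [inv_mul_cancel, (hG (p.1+1)).one p.1 (by omega) p.1 (by omega), DD_self]
  dist_comm p q := by
    show μ p.1 q.1 (p.2⁻¹ * q.2) = μ q.1 p.1 (q.2⁻¹ * p.2)
    rw [← (hG (p.1+q.1+1)).inv p.1 (by omega) q.1 (by omega)]
    congr 1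
    group
  dist_triangle p q r := by
    show μ p.1 r.1 (p.2⁻¹ * r.2) ≤ μ p.1 q.1 (p.2⁻¹ * q.2) + μ q.1 r.1 (q.2⁻¹ * r.2)
    have h := (hG (p.1+q.1+r.1+1)).tri p.1 (by omega) q.1 (by omega) r.1 (by omega)
      (p.2⁻¹ * q.2) (q.2⁻¹ * r.2)
    have e : p.2⁻¹ * q.2 * (q.2⁻¹ * r.2) = p.2⁻¹ * r.2 := by group
    rwa [e] at h

/-- The action of `H`. -/
@[reducible] def actX (μ : ℕ → ℕ → H → ℝ) : MulAction H (XH μ) where
  smul h p := (p.1, h * p.2)
  one_smul p := by
    show (p.1, 1 * p.2) = p
    rw [one_mul]
    rfl
  mul_smul g h p := by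
    show (p.1, g * h * p.2) = (p.1, g * (h * p.2))
    rw [mul_assoc]

end

/-- The embedding. -/
theorem exists_embedding (H : Type u) [Group H] [MetricSpace H] [IsTopologicalGroup H]
    [TopologicalSpace.SeparableSpace H]
    (hl : ∀ g x y : H, dist (g * x) (g * y) = dist x y) :
    ∃ φ : H →* GU, ∀ x y : H, dist (φ x) (φ y) = dist x y := by
  classical
  let N : H → ℝ := fun h => dist h 1
  have hNinv : ∀ h, N h⁻¹ = N h := by
    intro h
    show dist h⁻¹ 1 = dist h 1
    rw [← hl h, mul_inv_cancel, mul_one, dist_comm]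
  have hN : Norm N := by
    refine ⟨dist_self _, hNinv, ?_⟩
    intro g h
    show dist (g * h) 1 ≤ dist g 1 + dist h 1
    have h1 := dist_triangle (g * h) g 1
    have h2 : dist (g * h) g = dist h 1 := by
      have := hl g h 1
      rwa [mul_one] at this
    linarith
  have hdist : ∀ g h : H, N (g⁻¹ * h) = dist g h := by
    intro g h
    show dist (g⁻¹ * h) 1 = dist g h
    rw [← hl g, mul_inv_cancel_left, mul_one, dist_comm]
  have hcont : ∀ k : H, ∀ ε > 0, ∃ s > 0, ∀ g, N g < s → N (k⁻¹ * g * k) < ε := by
    intro k ε hε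
    have hc : Continuous (fun g : H => k⁻¹ * g * k) := by fun_prop
    have h1 := Metric.continuousAt_iff.1 (hc.continuousAt (x := (1:H))) ε hε
    obtain ⟨s, hs, hs'⟩ := h1
    refine ⟨s, hs, ?_⟩
    intro g hg
    have := hs' (x := g) hg
    rwa [mul_one, inv_mul_cancel] at this
  obtain ⟨μ, hG, hdense⟩ := exists_mu DD_pm DD_rich hN hcont (TopologicalSpace.denseSeq H)
  let _ : PseudoMetricSpace (XH μ) := pmX hG
  let _ : MulAction H (XH μ) := actX μ
  have hdX : ∀ m n g h, dist (mkX μ m g) (mkX μ n h) = μ m n (g⁻¹ * h) := fun _ _ _ _ => rfl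
  have hsmul : ∀ g n h, g • mkX μ n h = mkX μ n (g * h) := fun _ _ _ => rfl
  have hiso : IsIsometricSMul H (XH μ) := by
    refine ⟨fun c => Isometry.of_dist_eq ?_⟩
    rintro ⟨m, g⟩ ⟨n, h⟩
    show μ m n ((c * g)⁻¹ * (c * h)) = μ m n (g⁻¹ * h)
    congr 1
    group
  have huc : UniformContinuousConstSMul H (XH μ) :=
    ⟨fun c => (isometry_smul (XH μ) c).uniformContinuous⟩
  have hiso' : IsIsometricSMul H (UniformSpace.Completion (XH μ)) := by
    refine ⟨fun c => ?_⟩
    have h1 : Isometry (fun x : XH μ => c • x) := isometry_smul _ c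
    exact h1.completion_map
  -- the map U0 → XH
  let ι : U0 → XH μ := fun n => mkX μ (toN n) 1
  have hι : Isometry ι := by
    refine Isometry.of_dist_eq ?_
    intro m n
    show μ (toN m) (toN n) (1⁻¹ * 1) = DD (toN m) (toN n)
    rw [inv_one, one_mul]
    exact (hG (toN m + toN n + 1)).one _ (by omega) _ (by omega)
  have hιd : DenseRange ι := by
    rw [Metric.denseRange_iff]
    rintro ⟨n, g⟩ r hr
    -- approximate g by a member of the dense sequence
    have hpos : (0:ℝ) < (n:ℝ) + 1 := by positivity
    obtain ⟨l, hl'⟩ := (TopologicalSpace.denseRange_denseSeq H).exists_dist_lt g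
      (show 0 < r / 2 / ((n:ℝ)+1) by positivity)
    obtain ⟨m, hm⟩ := hdense n l (r/4) (by positivity)
    refine ⟨(ofN m : U0), ?_⟩
    show μ n m (g⁻¹ * 1) < r
    have e1 : μ n m (g⁻¹ * 1) = μ m n g := by
      rw [mul_one]
      exact (hG (m+n+1)).inv n (by omega) m (by omega) g
    have e2 := (hG (m+n+1)).tri m (by omega) n (by omega) n (by omega)
      (TopologicalSpace.denseSeq H l) ((TopologicalSpace.denseSeq H l)⁻¹ * g)
    rw [mul_inv_cancel_left] at e2
    have e3 := (hG (m+n+1)).lip n (by omega) ((TopologicalSpace.denseSeq H l)⁻¹ * g)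
    rw [hdist, dist_comm] at e3
    rw [lt_div_iff₀ hpos] at hl'
    rw [e1]
    linarith
  let e : UU → (UniformSpace.Completion (XH μ)) := UniformSpace.Completion.map ι
  have he : Isometry e := hι.completion_map
  have hept : ∀ n, e (pt n) = ((mkX μ n 1 : XH μ) : (UniformSpace.Completion (XH μ))) := by
    intro n
    exact UniformSpace.Completion.map_coe hι.uniformContinuous (ofN n)
  have hsurj : Function.Surjective e := by
    have h1 : IsClosed (Set.range e) := he.isClosedEmbedding.isClosed_range
    have h2 : DenseRange e := by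
      have h3 : DenseRange (fun n : U0 => ((ι n : XH μ) : (UniformSpace.Completion (XH μ)))) :=
        (UniformSpace.Completion.denseRange_coe (α := XH μ)).comp hιd
          (UniformSpace.Completion.continuous_coe _)
      refine Dense.mono ?_ h3
      rintro _ ⟨n, rfl⟩
      exact ⟨pt (toN n), hept _⟩
    intro x
    have := h2 x
    rwa [h1.closure_eq] at this
  let E : UU ≃ᵢ (UniformSpace.Completion (XH μ)) := ⟨Equiv.ofBijective e ⟨he.injective, hsurj⟩, he⟩
  have hE : ∀ x, E x = e x := fun _ => rfl
  let φ : H →* GU :=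
    { toFun := fun h => (E.trans (IsometryEquiv.constSMul h)).trans E.symm
      map_one' := by
        apply ap_ext
        intro x
        show E.symm ((1:H) • E x) = x
        rw [one_smul, E.symm_apply_apply]
      map_mul' := by
        intro g h
        apply ap_ext
        intro x
        show E.symm ((g * h) • E x) = E.symm (g • E (E.symm (h • E x)))
        rw [E.apply_symm_apply, mul_smul] }
  have hφ : ∀ g n, E (ap (φ g) (pt n)) = ((mkX μ n g : XH μ) : (UniformSpace.Completion (XH μ))) := by
    intro g n
    show E (E.symm (g • E (pt n))) = _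
    rw [E.apply_symm_apply, hE, hept, ← UniformSpace.Completion.coe_smul, hsmul, mul_one]
  have hφd : ∀ g h n, dist (ap (φ g) (pt n)) (ap (φ h) (pt n)) = μ n n (g⁻¹ * h) := by
    intro g h n
    rw [← E.dist_eq, hφ, hφ, UniformSpace.Completion.dist_eq]
    rfl
  refine ⟨φ, ?_⟩
  intro g h
  rw [dist_GU, ← hdist g h]
  have hz : μ 0 0 (g⁻¹ * h) = N (g⁻¹ * h) := (hG 1).zero (by omega) _
  apply le_antisymm
  · apply gd_le
    · rw [hφd, hz]
    · intro n
      unfold term
      rw [hφd]
      have hpos : (0:ℝ) < (n:ℝ) + 1 := by positivity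
      rw [div_le_iff₀ hpos]
      refine (min_le_left _ _).trans ?_
      have := (hG (n+1)).lip n (by omega) (g⁻¹ * h)
      linarith
  · rw [← hz, ← hφd g h 0]
    exact le_max_left _ _

/-- **Shkarin's question has a positive answer.** There is a separable group `G` with a
left-invariant metric (inducing a group topology) such that every separable group `H` with
left-invariant metric (inducing a group topology) admits an isometric embedding into `G`, i.e. an
injective distance-preserving group homomorphism. -/
theorem result :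
    ∃ (G : Type) (_ : Group G) (_ : MetricSpace G),
      IsTopologicalGroup G ∧ TopologicalSpace.SeparableSpace G ∧
      (∀ g x y : G, dist (g * x) (g * y) = dist x y) ∧
      ∀ (H : Type u) [Group H] [MetricSpace H],
        IsTopologicalGroup H → TopologicalSpace.SeparableSpace H →
        (∀ g x y : H, dist (g * x) (g * y) = dist x y) →
        ∃ φ : H →* G, Function.Injective φ ∧ ∀ x y : H, dist (φ x) (φ y) = dist x y := by
  refine ⟨GU, inferInstance, inferInstance, isTopologicalGroup_GU, separable_GU, dist_left, ?_⟩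
  intro H _ _ h1 h2 h3
  obtain ⟨φ, hφ⟩ := exists_embedding H h3
  refine ⟨φ, ?_, hφ⟩
  intro x y hxy
  have := hφ x y
  rw [hxy, dist_self] at this
  exact dist_eq_zero.1 this.symm

end Pool.Agent.Results.MP_501377_al.UniversalLeftInvariant
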